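import Pool.Agent.Q62.PC.ConcP

open MeasureTheory Filter Topology

namespace Pool.Agent.Results.MP_9ab776_an.GlobalConcentration

open Pool.Agent.Q62.PC

/-- the translate `f(· + y)`, `y ∈ ℤᴺ` -/
def shift {N : ℕ} {F : Type*} (y : Fin N → ℤ) (f : E N → F) (x : E N) : F := f (x + pt y)

/-- `∫_S (|∇u|² + u²)`, `g = ∇u` -/
noncomputable def energy {N : ℕ} (S : Set (E N)) (u : E N → ℝ) (g : E N → E N) : ℝ :=
  ∫ x in S, (‖g x‖ ^ 2 + u x ^ 2)

/-- `∫_S |u|^p` -/
noncomputable def mass {N : ℕ} (p : ℝ) (S : Set (E N)) (u : E N → ℝ) : ℝ := ∫ x in S, |u x| ^ p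

/-- the sequence `u n`, with gradients `g n`, concentrates in all balls around `0` -/
def Concentrates {N : ℕ} (p : ℝ) (u : ℕ → E N → ℝ) (g : ℕ → E N → E N) : Prop :=
  ∀ δ : ℝ, 0 < δ → δ < 1 / 2 →
    Tendsto (fun n => energy (Metric.ball 0 δ) (u n) (g n) / energy Set.univ (u n) (g n)) atTop
      (𝓝 1) ∧
    Tendsto (fun n => mass p (Metric.ball 0 δ) (u n) / mass p Set.univ (u n)) atTop (𝓝 1)

/-- Q1 is true: least energy solutions (positive or not) of the equation with a periodic shrinking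
core concentrate globally, after a translation by a point of `ℤᴺ`, in every ball around `0`. -/
theorem result (N : ℕ) (hN : 2 ≤ N) (p : ℝ) (hp : 2 < p) (hp2 : p * ((N : ℝ) - 2) < 2 * N)
    (ε : ℕ → ℝ) (hε : ∀ n, 0 < ε n ∧ ε n < 1 / 2) (hε0 : Tendsto ε atTop (𝓝 0))
    (u : ℕ → E N → ℝ) (g : ℕ → E N → E N) (hu : ∀ n, IsLeast p (ε n) (u n) (g n)) :
    ∃ y : ℕ → Fin N → ℤ,
      Concentrates p (fun n => shift (y n) (u n)) fun n => shift (y n) (g n) := by
  obtain ⟨y, hy⟩ := main N hN p hp hp2 ε (fun n => (hε n).1) hε0 u g hu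
  refine ⟨y, fun δ hδ hδ1 => ?_⟩
  obtain ⟨h1, h2⟩ := hy δ hδ hδ1
  have a1 : ∀ n, energy (Metric.ball 0 δ) (shift (y n) (u n)) (shift (y n) (g n)) =
      ∫ x in Metric.ball (pt (y n)) δ, dens (u n) (g n) x :=
    fun n => shift_ball (dens (u n) (g n)) (pt (y n)) δ
  have a2 : ∀ n, energy Set.univ (shift (y n) (u n)) (shift (y n) (g n)) =
      ∫ x, dens (u n) (g n) x := by
    intro n
    unfold energy
    rw [setIntegral_univ]
    exact integral_add_right_eq_self (dens (u n) (g n)) (pt (y n))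
  have a3 : ∀ n, mass p (Metric.ball 0 δ) (shift (y n) (u n)) =
      ∫ x in Metric.ball (pt (y n)) δ, |u n x| ^ p :=
    fun n => shift_ball (fun x => |u n x| ^ p) (pt (y n)) δ
  have a4 : ∀ n, mass p Set.univ (shift (y n) (u n)) = ∫ x, |u n x| ^ p := by
    intro n
    unfold mass
    rw [setIntegral_univ]
    exact integral_add_right_eq_self (fun x => |u n x| ^ p) (pt (y n))
  simp only [a1, a2, a3, a4]
  exact ⟨h1, h2⟩

end Pool.Agent.Results.MP_9ab776_an.GlobalConcentration
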